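import Pool.Agent.helper10.CH.SpecZ

/-!
Row chz:CUB (uniform bounds, all `s`).
-/

set_option autoImplicit false

open NumberField Complex

namespace Pool.Agent.UN

theorem CUB_T (x : ℝ) (hx : 0 ≤ x) : Real.log 2 ≤ Real.log (2 + x) ∧ 0 < Real.log (2 + x) ∧ Real.log (2 + x) ≤ (1 + x) * Real.log (2 + x) := by
  have h1 : Real.log 2 ≤ Real.log (2 + x) := Real.log_le_log (by norm_num) (by linarith)
  have h2 : 0 < Real.log 2 := Real.log_pos (by norm_num)
  refine ⟨h1, by linarith, ?_⟩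
  nlinarith

theorem CUB_const (A : ℝ) (hA : 1 ≤ A) : ∃ K : ℝ, 0 ≤ K ∧ ∀ x : ℝ, 0 ≤ x → A ≤ Real.exp (K * ((1 + x) * Real.log (2 + x))) := by
  have h2 : 0 < Real.log 2 := Real.log_pos (by norm_num)
  have hlA : 0 ≤ Real.log A := Real.log_nonneg hA
  refine ⟨Real.log A / Real.log 2, by positivity, fun x hx => ?_⟩
  obtain ⟨h3, h4, h5⟩ := CUB_T x hx
  have h6 : A = Real.exp (Real.log A / Real.log 2 * Real.log 2) := by
    rw [div_mul_cancel₀ _ h2.ne', Real.exp_log (by linarith)]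
  calc A = Real.exp (Real.log A / Real.log 2 * Real.log 2) := h6
    _ ≤ Real.exp (Real.log A / Real.log 2 * ((1 + x) * Real.log (2 + x))) := by
      apply Real.exp_le_exp.2
      exact mul_le_mul_of_nonneg_left (by linarith) (by positivity)

theorem CUB_lin (x : ℝ) (hx : 0 ≤ x) : 2 + x ≤ Real.exp ((1 + x) * Real.log (2 + x)) := by
  obtain ⟨h3, h4, h5⟩ := CUB_T x hx
  calc 2 + x = Real.exp (Real.log (2 + x)) := (Real.exp_log (by linarith)).symm
    _ ≤ _ := Real.exp_le_exp.2 h5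

theorem CUB_gam (x y : ℝ) (hx : 0 ≤ x) (hy : 0 ≤ y) (hyx : y ≤ 2 + x) : (1 + y) * Real.log (2 + y) ≤ 6 * ((1 + x) * Real.log (2 + x)) := by
  obtain ⟨h3, h4, h5⟩ := CUB_T x hx
  obtain ⟨-, h4', -⟩ := CUB_T y hy
  have h6 : Real.log (2 + y) ≤ 2 * Real.log (2 + x) := by
    have h7 : Real.log ((2 + x) ^ 2) = 2 * Real.log (2 + x) := by
      rw [Real.log_pow]
      norm_num
    rw [← h7]
    refine Real.log_le_log (by linarith) ?_
    nlinarith
  have h8 : 1 + y ≤ 3 * (1 + x) := by linarith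
  calc (1 + y) * Real.log (2 + y) ≤ (3 * (1 + x)) * (2 * Real.log (2 + x)) := mul_le_mul h8 h6 h4'.le (by positivity)
    _ = _ := by ring

theorem CUB_fin (q x c1 c2 C B : ℝ) (hq : 1 ≤ q) (hx : 0 ≤ x) (h1 : c1 ≤ C) (h2 : c2 ≤ C)
    (h : B ≤ q ^ (c1 * (1 + x)) * Real.exp (c2 * ((1 + x) * Real.log (2 + x)))) : B ≤ q ^ (C * (1 + x)) * Real.exp (C * (1 + x) * Real.log (2 + x)) := by
  obtain ⟨h3, h4, h5⟩ := CUB_T x hx
  refine h.trans (mul_le_mul ?_ ?_ (Real.exp_pos _).le (Real.rpow_nonneg (by linarith) _))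
  · exact Real.rpow_le_rpow_of_exponent_le hq (mul_le_mul_of_nonneg_right h1 (by linarith))
  · apply Real.exp_le_exp.2
    have e : C * (1 + x) * Real.log (2 + x) = C * ((1 + x) * Real.log (2 + x)) := by ring
    rw [e]
    exact mul_le_mul_of_nonneg_right h2 (by positivity)

theorem CUB (hCUP : CUP_stmt) (hCUG : CUG_stmt) : CUB_stmt := by
  intro n C₁ hC₁
  obtain ⟨C', hC', hG1, hG2⟩ := hCUG
  obtain ⟨K1, hK1, hk1⟩ := CUB_const C₁ hC₁
  obtain ⟨K2, hK2, hk2⟩ := CUB_const (C₁ ^ 2 * 7 ^ (2 * n + 1)) (by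
    have h1 : (1 : ℝ) ≤ C₁ ^ 2 := one_le_pow₀ hC₁
    have h2 : (1 : ℝ) ≤ 7 ^ (2 * n + 1) := one_le_pow₀ (by norm_num)
    nlinarith)
  have hnn : (0 : ℝ) ≤ n := Nat.cast_nonneg n
  refine ⟨2 + 2 * K1 + 1 + 12 * n * C' + K2 + (4 * n + 2), by nlinarith, ?_⟩
  intro ι _ e q L hcard he hq hL hB hR hLft s
  have hx : 0 ≤ ‖s‖ := norm_nonneg s
  obtain ⟨T, hT⟩ : ∃ T, T = (1 + ‖s‖) * Real.log (2 + ‖s‖) := ⟨_, rfl⟩
  obtain ⟨h3, h4, h5⟩ := CUB_T ‖s‖ hx
  have hT0 : 0 < T := by rw [hT]; positivity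
  have hq0 : 0 < q := by linarith
  have hlin : 2 + ‖s‖ ≤ Real.exp T := by rw [hT]; exact CUB_lin _ hx
  have hk1' : C₁ ≤ Real.exp (K1 * T) := by rw [hT]; exact hk1 _ hx
  have hk2' : C₁ ^ 2 * 7 ^ (2 * n + 1) ≤ Real.exp (K2 * T) := by rw [hT]; exact hk2 _ hx
  have hnC : 0 ≤ 12 * n * C' := by positivity
  rcases le_total 2 s.re with h | h
  · refine CUB_fin q ‖s‖ 0 (K1 + 1) _ _ hq hx (by linarith) (by linarith) ?_
    rw [zero_mul, Real.rpow_zero, one_mul, ← hT]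
    calc ‖L s‖ ≤ C₁ * (1 + ‖s‖) := hR s h
      _ ≤ Real.exp (K1 * T) * Real.exp T := mul_le_mul hk1' (by linarith) (by positivity) (Real.exp_pos _).le
      _ = Real.exp ((K1 + 1) * T) := by rw [← Real.exp_add]; ring_nf
  · rcases le_total s.re (-(3 / 2)) with h' | h'
    · refine CUB_fin q ‖s‖ 1 (2 * K1 + 1 + 12 * n * C') _ _ hq hx (by linarith) (by linarith) ?_
      rw [one_mul, ← hT]
      have e1 : q ^ (1 / 2 - s.re) ≤ q ^ (1 + ‖s‖) := by
        refine Real.rpow_le_rpow_of_exponent_le hq ?_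
        have := Complex.abs_re_le_norm s
        have := neg_abs_le s.re
        linarith
      have e2 : ‖L (1 - (starRingEnd ℂ) s)‖ ≤ C₁ * (2 + ‖s‖) := by
        have e3 : (1 - (starRingEnd ℂ) s).re = 1 - s.re := by simp
        refine (hR _ (by rw [e3]; linarith)).trans ?_
        have e4 : ‖1 - (starRingEnd ℂ) s‖ ≤ 1 + ‖s‖ := by
          refine (norm_sub_le _ _).trans ?_
          rw [norm_one, RCLike.norm_conj]
        exact mul_le_mul_of_nonneg_left (by linarith) (by linarith)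
      have e5 : ∀ i, ‖Gammaℝ (1 - s + e i)‖ * ‖(Gammaℝ (s + e i))⁻¹‖ ≤ Real.exp (12 * C' * T) := by
        intro i
        have he0 : 0 ≤ e i ∧ e i ≤ 1 := by
          rcases he i with h0 | h0 <;> rw [h0] <;> norm_num
        have hne : ‖((e i : ℝ) : ℂ)‖ ≤ 1 := by
          rw [Complex.norm_real, Real.norm_eq_abs, abs_of_nonneg he0.1]
          exact he0.2
        have f1 : ‖1 - s + e i‖ ≤ 2 + ‖s‖ := by
          have g1 := norm_add_le (1 - s) ((e i : ℝ) : ℂ)
          have g2 := norm_sub_le (1 : ℂ) s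
          rw [norm_one] at g2
          linarith
        have f2 : ‖s + e i‖ ≤ 2 + ‖s‖ := by
          have g1 := norm_add_le s ((e i : ℝ) : ℂ)
          linarith
        have f3 : 1 ≤ (1 - s + e i).re := by
          have g1 : (1 - s + e i).re = 1 - s.re + e i := by simp
          rw [g1]
          linarith [he0.1]
        have f4 : ‖Gammaℝ (1 - s + e i)‖ ≤ Real.exp (6 * C' * T) := by
          refine (hG2 _ f3).trans (Real.exp_le_exp.2 ?_)
          have g1 := CUB_gam ‖s‖ ‖1 - s + e i‖ hx (norm_nonneg _) f1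
          rw [← hT] at g1
          calc C' * (1 + ‖1 - s + e i‖) * Real.log (2 + ‖1 - s + e i‖) = C' * ((1 + ‖1 - s + e i‖) * Real.log (2 + ‖1 - s + e i‖)) := by ring
            _ ≤ C' * (6 * T) := mul_le_mul_of_nonneg_left g1 (by linarith)
            _ = 6 * C' * T := by ring
        have f5 : ‖(Gammaℝ (s + e i))⁻¹‖ ≤ Real.exp (6 * C' * T) := by
          refine (hG1 _).trans (Real.exp_le_exp.2 ?_)
          have g1 := CUB_gam ‖s‖ ‖s + e i‖ hx (norm_nonneg _) f2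
          rw [← hT] at g1
          calc C' * (1 + ‖s + e i‖) * Real.log (2 + ‖s + e i‖) = C' * ((1 + ‖s + e i‖) * Real.log (2 + ‖s + e i‖)) := by ring
            _ ≤ C' * (6 * T) := mul_le_mul_of_nonneg_left g1 (by linarith)
            _ = 6 * C' * T := by ring
        calc _ ≤ Real.exp (6 * C' * T) * Real.exp (6 * C' * T) := mul_le_mul f4 f5 (norm_nonneg _) (Real.exp_pos _).le
          _ = Real.exp (12 * C' * T) := by rw [← Real.exp_add]; ring_nf
      have e6 : ∏ i, (‖Gammaℝ (1 - s + e i)‖ * ‖(Gammaℝ (s + e i))⁻¹‖) ≤ Real.exp (12 * n * C' * T) := by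
        calc ∏ i, (‖Gammaℝ (1 - s + e i)‖ * ‖(Gammaℝ (s + e i))⁻¹‖) ≤ ∏ _i : ι, Real.exp (12 * C' * T) :=
              Finset.prod_le_prod (fun i _ => by positivity) (fun i _ => e5 i)
          _ = Real.exp (12 * C' * T) ^ (Fintype.card ι) := by rw [Finset.prod_const, Finset.card_univ]
          _ ≤ Real.exp (12 * C' * T) ^ n := pow_le_pow_right₀ (Real.one_le_exp (by positivity)) hcard
          _ = Real.exp (12 * n * C' * T) := by rw [← Real.exp_nat_mul]; ring_nf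
      have e7 : 0 ≤ ∏ i, (‖Gammaℝ (1 - s + e i)‖ * ‖(Gammaℝ (s + e i))⁻¹‖) := Finset.prod_nonneg fun i _ => by positivity
      have e8 : ‖L (1 - (starRingEnd ℂ) s)‖ ≤ Real.exp (K1 * T) * Real.exp T := e2.trans (mul_le_mul hk1' hlin (by positivity) (Real.exp_pos _).le)
      calc ‖L s‖ ≤ C₁ * q ^ (1 / 2 - s.re) * ‖L (1 - (starRingEnd ℂ) s)‖ * ∏ i, (‖Gammaℝ (1 - s + e i)‖ * ‖(Gammaℝ (s + e i))⁻¹‖) := hLft s h'
        _ ≤ (Real.exp (K1 * T) * q ^ (1 + ‖s‖)) * (Real.exp (K1 * T) * Real.exp T) * Real.exp (12 * n * C' * T) := by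
          refine mul_le_mul (mul_le_mul (mul_le_mul hk1' e1 (by positivity) (Real.exp_pos _).le) e8 (norm_nonneg _) (by positivity)) e6 e7 (by positivity)
        _ = q ^ (1 + ‖s‖) * Real.exp ((2 * K1 + 1 + 12 * n * C') * T) := by
          have : Real.exp ((2 * K1 + 1 + 12 * n * C') * T) = Real.exp (K1 * T) * (Real.exp (K1 * T) * Real.exp T) * Real.exp (12 * n * C' * T) := by
            rw [← Real.exp_add, ← Real.exp_add, ← Real.exp_add]
            ring_nf
          rw [this]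
          ring
    · refine CUB_fin q ‖s‖ 2 (K2 + (4 * n + 2)) _ _ hq hx (by linarith) (by linarith) ?_
      rw [← hT]
      have e1 := hCUP n C₁ hC₁ ι e q L hcard he hq hL hB hR hLft s h' h
      have e2 : q ^ (2 : ℝ) ≤ q ^ (2 * (1 + ‖s‖)) := Real.rpow_le_rpow_of_exponent_le hq (by linarith)
      have e3 : ‖s + 3‖ ≤ (2 + ‖s‖) ^ 2 := by
        have g1 := norm_add_le s 3
        have g2 : ‖(3 : ℂ)‖ = 3 := by norm_num
        rw [g2] at g1
        nlinarith
      have e4 : ‖s + 3‖ ^ (2 * n + 1) ≤ Real.exp ((4 * n + 2) * T) := by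
        calc ‖s + 3‖ ^ (2 * n + 1) ≤ ((2 + ‖s‖) ^ 2) ^ (2 * n + 1) := pow_le_pow_left₀ (norm_nonneg _) e3 _
          _ ≤ (Real.exp T ^ 2) ^ (2 * n + 1) := pow_le_pow_left₀ (by positivity) (pow_le_pow_left₀ (by positivity) hlin 2) _
          _ = Real.exp ((4 * n + 2) * T) := by
            rw [← pow_mul, ← Real.exp_nat_mul]
            push_cast
            ring_nf
      calc ‖L s‖ ≤ C₁ ^ 2 * 7 ^ (2 * n + 1) * q ^ (2 : ℝ) * ‖s + 3‖ ^ (2 * n + 1) := e1
        _ ≤ Real.exp (K2 * T) * q ^ (2 * (1 + ‖s‖)) * Real.exp ((4 * n + 2) * T) := by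
          refine mul_le_mul (mul_le_mul hk2' e2 (by positivity) (Real.exp_pos _).le) e4 (by positivity) (by positivity)
        _ = q ^ (2 * (1 + ‖s‖)) * Real.exp ((K2 + (4 * n + 2)) * T) := by
          have : Real.exp ((K2 + (4 * n + 2)) * T) = Real.exp (K2 * T) * Real.exp ((4 * n + 2) * T) := by
            rw [← Real.exp_add]
            ring_nf
          rw [this]
          ring

end Pool.Agent.UN
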