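import Pool.Agent.helper82.CH.SpecE

/-!
Row che:CNJ (conjugate zeros).
-/

set_option autoImplicit false

open Complex

namespace Pool.Agent.CHE

/-- characters of a finite group have absolute value one -/
theorem CNJ_norm {Y : Type} [CommGroup Y] [Fintype Y] (χ : Y →* ℂˣ) (y : Y) : (starRingEnd ℂ) (((χ⁻¹ y : ℂˣ) : ℂ)) = ((χ y : ℂˣ) : ℂ) := by
  have h1 : ((χ y : ℂˣ) : ℂ) ^ Fintype.card Y = 1 := by
    have h0 : χ y ^ Fintype.card Y = 1 := by rw [← map_pow, pow_card_eq_one, map_one]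
    rw [← Units.val_pow_eq_pow_val, h0, Units.val_one]
  have h2 : ‖((χ y : ℂˣ) : ℂ)‖ = 1 := Complex.norm_eq_one_of_pow_eq_one h1 Fintype.card_ne_zero
  have h3 : ((χ⁻¹ y : ℂˣ) : ℂ) = (((χ y : ℂˣ) : ℂ))⁻¹ := by
    rw [MonoidHom.inv_apply, Units.val_inv_eq_inv_val]
  rw [h3, map_inv₀]
  symm
  apply eq_inv_of_mul_eq_one_left
  rw [Complex.mul_conj', h2]
  norm_num

theorem CNJ_L (f g : ℕ → ℂ) (h : ∀ k, (starRingEnd ℂ) (f k) = g k) (s : ℂ) : (starRingEnd ℂ) (LSeries f ((starRingEnd ℂ) s)) = LSeries g s := by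
  unfold LSeries
  rw [Complex.conj_tsum]
  refine tsum_congr fun k => ?_
  by_cases hk : k = 0
  · rw [hk, LSeries.term_zero, LSeries.term_zero, map_zero]
  · rw [LSeries.term_of_ne_zero hk, LSeries.term_of_ne_zero hk, map_div₀, h]
    have h1 : (starRingEnd ℂ) ((k : ℂ) ^ ((starRingEnd ℂ) s)) = (k : ℂ) ^ s := by
      have h2 := Complex.conj_cpow (k : ℂ) s (by rw [Complex.natCast_arg]; exact Real.pi_pos.ne)
      rw [← h2, Complex.conj_natCast]
    rw [h1]

theorem CNJ : CNJ_stmt := by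
  intro Y _ _ C l b E hS χ ρ hρ
  obtain ⟨g, hg⟩ : ∃ g : ℂ → ℂ, g = (starRingEnd ℂ) ∘ E χ⁻¹ ∘ (starRingEnd ℂ) := ⟨_, rfl⟩
  have hgs : ∀ s, g s = (starRingEnd ℂ) (E χ⁻¹ ((starRingEnd ℂ) s)) := fun s => by rw [hg]; rfl
  have hgd : Differentiable ℂ g := by
    intro s
    rw [hg]
    exact differentiableAt_conj_conj_iff.2 ((hS.diff χ⁻¹) _)
  have hg' : ∀ s, deriv g s = (starRingEnd ℂ) (deriv (E χ⁻¹) ((starRingEnd ℂ) s)) := by
    intro s
    rw [hg, deriv_conj_conj]
    rfl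
  have hak : ∀ k, (starRingEnd ℂ) (ak b χ⁻¹ k) = ak b χ k := by
    intro k
    unfold ak
    rw [map_sum]
    refine Finset.sum_congr rfl fun y _ => ?_
    rw [map_mul, CNJ_norm, Complex.conj_ofReal]
  have hdl : (starRingEnd ℂ) (dl χ⁻¹) = dl χ := by
    by_cases h : χ = 1
    · have h' : χ⁻¹ = 1 := by
        refine MonoidHom.ext fun y => ?_
        rw [MonoidHom.inv_apply, h, MonoidHom.one_apply, inv_one]
      unfold dl
      rw [if_pos h, if_pos h', map_one]
    · have h' : χ⁻¹ ≠ 1 := by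
        intro h0
        apply h
        refine MonoidHom.ext fun y => ?_
        have h1 : (χ⁻¹) y = 1 := by rw [h0, MonoidHom.one_apply]
        rw [MonoidHom.inv_apply] at h1
        rw [MonoidHom.one_apply]
        exact inv_eq_one.1 h1
      unfold dl
      rw [if_neg h, if_neg h', map_zero]
  obtain ⟨U, hU⟩ : ∃ U : Set ℂ, U = {s : ℂ | 1 < s.re} := ⟨_, rfl⟩
  have hUo : IsOpen U := by
    rw [hU]
    exact isOpen_lt continuous_const Complex.continuous_re
  have hUc : IsPreconnected U := by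
    rw [hU]
    exact (convex_halfSpace_re_gt 1).isPreconnected
  have hEne : ∀ s ∈ U, E χ s ≠ 0 := by
    intro s hs
    rw [hU] at hs
    exact hS.ne χ s hs
  have hgne : ∀ s ∈ U, g s ≠ 0 := by
    intro s hs
    rw [hU] at hs
    rw [hgs]
    intro h0
    have h1 : E χ⁻¹ ((starRingEnd ℂ) s) = 0 := (map_eq_zero _).1 h0
    refine hS.ne χ⁻¹ _ ?_ h1
    rw [Complex.conj_re]
    exact hs
  have hlog : ∀ s ∈ U, deriv g s / g s = deriv (E χ) s / E χ s := by
    intro s hs
    rw [hU] at hs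
    have h1 := hS.ser χ s hs
    have h2 := hS.ser χ⁻¹ ((starRingEnd ℂ) s) (by rw [Complex.conj_re]; exact hs)
    have h3 := congrArg (starRingEnd ℂ) h2
    rw [CNJ_L _ _ hak, h1, map_sub, map_div₀, map_div₀, hdl, map_sub, map_one, Complex.conj_conj, ← hg', ← hgs] at h3
    exact (sub_right_inj.1 h3).symm
  have hconst : ∃ c, ∀ s ∈ U, g s / E χ s = c := by
    refine hUo.exists_is_const_of_deriv_eq_zero hUc ?_ ?_
    · intro s hs
      exact ((hgd s).div ((hS.diff χ) s) (hEne s hs)).differentiableWithinAt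
    · intro s hs
      have h1 : deriv (fun s => g s / E χ s) s = (deriv g s * E χ s - g s * deriv (E χ) s) / E χ s ^ 2 :=
        deriv_fun_div (hgd s) ((hS.diff χ) s) (hEne s hs)
      have h2 := hlog s hs
      rw [div_eq_div_iff (hgne s hs) (hEne s hs)] at h2
      have h3 : deriv g s * E χ s - g s * deriv (E χ) s = 0 := by rw [h2]; ring
      rw [h1, h3, zero_div]
      rfl
  obtain ⟨c, hc⟩ := hconst
  have hfin : g = fun s => c * E χ s := by
    have ha : AnalyticOnNhd ℂ g Set.univ := Complex.analyticOnNhd_univ_iff_differentiable.2 hgd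
    have hb : AnalyticOnNhd ℂ (fun s => c * E χ s) Set.univ := Complex.analyticOnNhd_univ_iff_differentiable.2 ((hS.diff χ).const_mul c)
    refine ha.eq_of_eventuallyEq hb (z₀ := 2) ?_
    have h2U : (2 : ℂ) ∈ U := by
      rw [hU]
      change (1 : ℝ) < (2 : ℂ).re
      norm_num
    filter_upwards [hUo.mem_nhds h2U] with s hs
    have h1 := hc s hs
    rw [div_eq_iff (hEne s hs)] at h1
    exact h1
  have h1 : g ρ = 0 := by
    rw [hfin]
    change c * E χ ρ = 0
    rw [hρ, mul_zero]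
  rw [hgs] at h1
  exact (map_eq_zero _).1 h1

end Pool.Agent.CHE
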