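import Pool.Agent.helper82.CH.SpecE

/-!
Row che:EFX (explicit formula for the system).
-/

set_option autoImplicit false

open Complex

namespace Pool.Agent.CHE

/-- characters of a finite group have absolute value one -/
theorem EFX_norm {Y : Type} [CommGroup Y] [Fintype Y] (χ : Y →* ℂˣ) (y : Y) : ‖((χ y : ℂˣ) : ℂ)‖ = 1 := by
  have h1 : ((χ y : ℂˣ) : ℂ) ^ Fintype.card Y = 1 := by
    have h0 : χ y ^ Fintype.card Y = 1 := by rw [← map_pow, pow_card_eq_one, map_one]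
    rw [← Units.val_pow_eq_pow_val, h0, Units.val_one]
  exact Complex.norm_eq_one_of_pow_eq_one h1 Fintype.card_ne_zero

theorem EFX_ak {Y : Type} [CommGroup Y] [Fintype Y] {C l : ℝ} {b : Y → ℕ → ℝ} {E : (Y →* ℂˣ) → ℂ → ℂ} (hS : Sys C l b E) (χ : Y →* ℂˣ) (k : ℕ) :
    ‖ak b χ k‖ ≤ C * VM k := by
  refine le_trans ?_ (hS.bd k)
  unfold ak
  refine (norm_sum_le _ _).trans (Finset.sum_le_sum fun y _ => ?_)
  rw [norm_mul, EFX_norm, one_mul, Complex.norm_real, Real.norm_eq_abs, abs_of_nonneg (hS.nonneg y k)]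

theorem EFX_summable {Y : Type} [CommGroup Y] [Fintype Y] {C l : ℝ} {b : Y → ℕ → ℝ} {E : (Y →* ℂˣ) → ℂ → ℂ} (hS : Sys C l b E) (χ : Y →* ℂˣ)
    (s : ℂ) (hs : 1 < s.re) : LSeriesSummable (ak b χ) s := by
  have h1 : LSeriesSummable ((C : ℂ) • fun n : ℕ => ((ArithmeticFunction.vonMangoldt n : ℝ) : ℂ)) s :=
    (ArithmeticFunction.LSeriesSummable_vonMangoldt hs).smul (C : ℂ)
  refine Summable.of_norm_bounded h1.norm fun n => ?_
  refine LSeries.norm_term_le s ?_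
  have hC : 0 ≤ C := by linarith [hS.C1]
  have h2 : ‖((C : ℂ) • fun n : ℕ => ((ArithmeticFunction.vonMangoldt n : ℝ) : ℂ)) n‖ = C * VM n := by
    change ‖(C : ℂ) * ((ArithmeticFunction.vonMangoldt n : ℝ) : ℂ)‖ = C * VM n
    rw [norm_mul, Complex.norm_real, Complex.norm_real, Real.norm_eq_abs, Real.norm_eq_abs, abs_of_nonneg hC,
      abs_of_nonneg ArithmeticFunction.vonMangoldt_nonneg]
    rfl
  rw [h2]
  exact EFX_ak hS χ n

theorem EFX_abs {Y : Type} [CommGroup Y] [Fintype Y] {C l : ℝ} {b : Y → ℕ → ℝ} {E : (Y →* ℂˣ) → ℂ → ℂ} (hS : Sys C l b E) (χ : Y →* ℂˣ)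
    (s : ℂ) (hs : 1 < s.re) : LSeries.abscissaOfAbsConv (ak b χ) < s.re := by
  have h1 : LSeries.abscissaOfAbsConv (ak b χ) ≤ ((1 : ℝ) : EReal) := by
    refine LSeries.abscissaOfAbsConv_le_of_forall_lt_LSeriesSummable fun y hy => ?_
    exact EFX_summable hS χ y (by rw [Complex.ofReal_re]; exact hy)
  exact lt_of_le_of_lt h1 (by exact_mod_cast hs)

theorem EFX_inv (c s : ℂ) (hs : s ≠ 1) (j : ℕ) :
    (-1) ^ j / (j.factorial : ℂ) * iteratedDeriv j (fun w => c / (w - 1)) s = c / (s - 1) ^ (j + 1) := by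
  have h1 : iteratedDeriv j (fun w : ℂ => c / (w - 1)) s = c * ((-1) ^ j * (j.factorial : ℂ) * (s - 1) ^ (-1 - (j : ℤ))) := by
    have e1 : (fun w : ℂ => c / (w - 1)) = fun w => c * (fun z : ℂ => Inv.inv (z - 1)) w := by
      funext w
      rw [div_eq_mul_inv]
    rw [e1, iteratedDeriv_const_mul_field, iteratedDeriv_comp_sub_const j Inv.inv (1 : ℂ)]
    change c * iteratedDeriv j Inv.inv (s - 1) = _
    rw [iteratedDeriv_eq_iterate, iter_deriv_inv]
  have hne : s - 1 ≠ 0 := sub_ne_zero.2 hs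
  have h2 : (s - 1) ^ (-1 - (j : ℤ)) = ((s - 1) ^ (j + 1))⁻¹ := by
    have e : (-1 - (j : ℤ)) = -(((j + 1 : ℕ)) : ℤ) := by push_cast; ring
    rw [e, zpow_neg, zpow_natCast]
  have h3 : (j.factorial : ℂ) ≠ 0 := by exact_mod_cast Nat.factorial_ne_zero j
  have h4 : ((-1 : ℂ)) ^ j * (-1) ^ j = 1 := by
    rw [← mul_pow]
    norm_num
  rw [h1, h2]
  calc (-1) ^ j / (j.factorial : ℂ) * (c * ((-1) ^ j * (j.factorial : ℂ) * ((s - 1) ^ (j + 1))⁻¹))
      = ((-1) ^ j * (-1) ^ j) * ((j.factorial : ℂ) / (j.factorial : ℂ)) * (c * ((s - 1) ^ (j + 1))⁻¹) := by ring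
    _ = c / (s - 1) ^ (j + 1) := by rw [h4, div_self h3, one_mul, one_mul, div_eq_mul_inv]

theorem EFX_logMul (f : ℕ → ℂ) (j : ℕ) (n : ℕ) : (LSeries.logMul^[j] f) n = (Complex.log n) ^ j * f n := by
  induction j generalizing f with
  | zero => simp
  | succ j ih =>
    rw [Function.iterate_succ_apply, ih]
    change Complex.log n ^ j * (Complex.log n * f n) = _
    ring

theorem EFX_ser {Y : Type} [CommGroup Y] [Fintype Y] {C l : ℝ} {b : Y → ℕ → ℝ} {E : (Y →* ℂˣ) → ℂ → ℂ} (hS : Sys C l b E) (χ : Y →* ℂˣ)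
    (s : ℂ) (hs : 1 < s.re) (j : ℕ) :
    LSeries (fun k => ak b χ k * ((Real.log k : ℂ) ^ j / (j.factorial : ℂ))) s =
      dl χ / (s - 1) ^ (j + 1) - (-1) ^ j / (j.factorial : ℂ) * iteratedDeriv j (fun w => deriv (E χ) w / E χ w) s := by
  have hs1 : s ≠ 1 := by
    intro h
    rw [h, Complex.one_re] at hs
    exact lt_irrefl _ hs
  have h3 : (j.factorial : ℂ) ≠ 0 := by exact_mod_cast Nat.factorial_ne_zero j
  have h4 : ((-1 : ℂ)) ^ j * (-1) ^ j = 1 := by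
    rw [← mul_pow]
    norm_num
  have hL := LSeries_iteratedDeriv (f := ak b χ) j (EFX_abs hS χ s hs)
  have hU : {w : ℂ | 1 < w.re} ∈ nhds s := (isOpen_lt continuous_const Complex.continuous_re).mem_nhds hs
  have hev : (fun w => deriv (E χ) w / E χ w) =ᶠ[nhds s] fun w => dl χ / (w - 1) - LSeries (ak b χ) w := by
    filter_upwards [hU] with w hw
    rw [hS.ser χ w hw]
    ring
  have hd1 : ContDiffAt ℂ j (fun w : ℂ => dl χ / (w - 1)) s :=
    contDiffAt_const.div (contDiffAt_id.sub contDiffAt_const) (sub_ne_zero.2 hs1)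
  have hd2 : ContDiffAt ℂ j (LSeries (ak b χ)) s := by
    have h5 := LSeries_analyticOnNhd (ak b χ) s (EFX_abs hS χ s hs)
    exact h5.contDiffAt
  have hit : iteratedDeriv j (fun w => deriv (E χ) w / E χ w) s = iteratedDeriv j (fun w : ℂ => dl χ / (w - 1)) s - iteratedDeriv j (LSeries (ak b χ)) s := by
    rw [hev.iteratedDeriv_eq j]
    exact iteratedDeriv_fun_sub hd1 hd2
  have hser : LSeries (fun k => ak b χ k * ((Real.log k : ℂ) ^ j / (j.factorial : ℂ))) s = (j.factorial : ℂ)⁻¹ * LSeries (LSeries.logMul^[j] (ak b χ)) s := by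
    rw [← LSeries_smul]
    have e : (fun k : ℕ => ak b χ k * ((Real.log k : ℂ) ^ j / (j.factorial : ℂ))) = (j.factorial : ℂ)⁻¹ • (LSeries.logMul^[j] (ak b χ)) := by
      funext k
      rw [Pi.smul_apply, smul_eq_mul, EFX_logMul, Complex.natCast_log]
      ring
    rw [e]
  rw [hit, mul_sub, EFX_inv _ _ hs1, hL, hser]
  have e2 : (-1) ^ j / (j.factorial : ℂ) * ((-1) ^ j * LSeries (LSeries.logMul^[j] (ak b χ)) s) = ((-1) ^ j * (-1) ^ j) * ((j.factorial : ℂ)⁻¹ * LSeries (LSeries.logMul^[j] (ak b χ)) s) := by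
    ring
  rw [e2, h4]
  ring

theorem EFX (hLLM : LLM_stmt) : EFX_stmt := by
  intro Y _ _ C l b E hS χ t₀ R ht hR
  have hC1 := hS.C1
  have hl1 := hS.l1
  have hn0 : ‖(2 + t₀ * I : ℂ)‖ ≤ 62 := by
    have h1 := norm_add_le (2 : ℂ) (t₀ * I)
    have h2 : ‖(2 : ℂ)‖ = 2 := by norm_num
    have h3 : ‖(t₀ * I : ℂ)‖ = |t₀| := by rw [norm_mul, Complex.norm_I, mul_one, Complex.norm_real, Real.norm_eq_abs]
    rw [h2, h3] at h1
    linarith
  have hlow := hS.low χ t₀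
  have hne0 : E χ (2 + t₀ * I) ≠ 0 := by
    intro h
    rw [h, norm_zero] at hlow
    linarith [Real.exp_pos (-C)]
  have hbd : ∀ s : ℂ, ‖s - (2 + t₀ * I)‖ ≤ R → ‖E χ s‖ ≤ Real.exp (MM C l R) * ‖E χ (2 + t₀ * I)‖ := by
    intro s hs
    have h1 : ‖s‖ ≤ 62 + R := by
      have h2 := norm_add_le (s - (2 + t₀ * I)) (2 + t₀ * I)
      rw [sub_add_cancel] at h2
      linarith
    have h3 : Real.log (2 + ‖s‖) ≤ Real.log (70 + R) := Real.log_le_log (by positivity) (by linarith)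
    have h4 : 0 ≤ Real.log (2 + ‖s‖) := Real.log_nonneg (by linarith [norm_nonneg s])
    have h5 : C * (1 + ‖s‖) * (l + Real.log (2 + ‖s‖)) ≤ C * (70 + R) * (l + Real.log (70 + R)) := by
      refine mul_le_mul (mul_le_mul_of_nonneg_left (by linarith) (by linarith)) (by linarith) (by linarith) (by positivity)
    calc ‖E χ s‖ ≤ Real.exp (C * (1 + ‖s‖) * (l + Real.log (2 + ‖s‖))) := hS.up χ s
      _ ≤ Real.exp (C * (70 + R) * (l + Real.log (70 + R))) := Real.exp_le_exp.2 h5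
      _ = Real.exp (MM C l R) * Real.exp (-C) := by
        rw [← Real.exp_add]
        congr 1
        unfold MM
        ring
      _ ≤ Real.exp (MM C l R) * ‖E χ (2 + t₀ * I)‖ := mul_le_mul_of_nonneg_left hlow (Real.exp_pos _).le
  obtain ⟨N, ρ, hN, hρ, hmult, hform⟩ := hLLM (E χ) (2 + t₀ * I) R (MM C l R) (hS.diff χ) (by linarith) hne0 hbd
  refine ⟨N, ρ, ⟨hN, fun i => (hρ i).1, ?_, fun i => (hρ i).2, hmult, ?_⟩⟩
  · intro i
    by_contra h
    push Not at h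
    exact hS.ne χ (ρ i) h (hρ i).1
  · intro s hs hsR j
    have h1 := hform s hsR (hS.ne χ s hs) j
    rw [EFX_ser hS χ s hs j]
    have e : dl χ / (s - 1) ^ (j + 1) - (-1) ^ j / (j.factorial : ℂ) * iteratedDeriv j (fun w => deriv (E χ) w / E χ w) s - dl χ / (s - 1) ^ (j + 1) +
      ∑ i, 1 / (s - ρ i) ^ (j + 1) = -((-1) ^ j / (j.factorial : ℂ) * iteratedDeriv j (fun w => deriv (E χ) w / E χ w) s - ∑ i, 1 / (s - ρ i) ^ (j + 1)) := by
      ring
    rw [e, norm_neg]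
    exact h1

end Pool.Agent.CHE
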