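import Pool.Agent.helper63.CH.EFX

/-!
Row che:MB1 (the main inequality).
-/

set_option autoImplicit false

open Complex

namespace Pool.Agent.CHE

theorem MB1_fin (Y : Type) [CommGroup Y] [Fintype Y] : Finite (Y →* ℂˣ) :=
  (CommGroup.monoidHom_mulEquiv_of_hasEnoughRootsOfUnity Y ℂ).some.toEquiv.finite_iff.2 inferInstance

theorem MB1_card (Y : Type) [CommGroup Y] [Fintype Y] [Fintype (Y →* ℂˣ)] : Fintype.card (Y →* ℂˣ) = Fintype.card Y := by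
  rw [← Nat.card_eq_fintype_card, ← Nat.card_eq_fintype_card]
  exact CommGroup.card_monoidHom_of_hasEnoughRootsOfUnity Y ℂ

open Classical in
theorem MB1_orth (Y : Type) [CommGroup Y] [Fintype Y] [Fintype (Y →* ℂˣ)] (a : Y) :
    ∑ χ : Y →* ℂˣ, ((χ a : ℂˣ) : ℂ) = if a = 1 then (Fintype.card Y : ℂ) else 0 := by
  by_cases ha : a = 1
  · rw [if_pos ha]
    have h1 : ∀ χ : Y →* ℂˣ, ((χ a : ℂˣ) : ℂ) = 1 := by
      intro χ
      rw [ha, map_one, Units.val_one]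
    rw [Finset.sum_congr rfl fun χ _ => h1 χ, Finset.sum_const, Finset.card_univ, MB1_card Y, nsmul_eq_mul, mul_one]
  · rw [if_neg ha]
    obtain ⟨φ, hφ⟩ := CommGroup.exists_apply_ne_one_of_hasEnoughRootsOfUnity Y ℂ ha
    obtain ⟨f, hf⟩ : ∃ f : (Y →* ℂˣ) →* ℂ, f = (Units.coeHom ℂ).comp (MonoidHom.eval a) := ⟨_, rfl⟩
    have hfx : ∀ χ : Y →* ℂˣ, f χ = ((χ a : ℂˣ) : ℂ) := by
      intro χ
      rw [hf]
      rfl
    have hne : f ≠ 1 := by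
      intro h
      apply hφ
      have h2 := hfx φ
      rw [h, MonoidHom.one_apply] at h2
      exact Units.ext h2.symm
    have h3 := sum_hom_units_eq_zero f hne
    rw [← h3]
    exact Finset.sum_congr rfl fun χ _ => (hfx χ).symm

theorem MB1_conj {Y : Type} [CommGroup Y] [Fintype Y] (χ : Y →* ℂˣ) (y : Y) : (starRingEnd ℂ) (((χ y : ℂˣ) : ℂ)) = ((χ y⁻¹ : ℂˣ) : ℂ) := by
  rw [map_inv, Units.val_inv_eq_inv_val]
  apply eq_inv_of_mul_eq_one_left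
  rw [mul_comm, Complex.mul_conj', EFX_norm]
  norm_num

theorem MB1_ak {Y : Type} [CommGroup Y] [Fintype Y] [Fintype (Y →* ℂˣ)] (b : Y → ℕ → ℝ) (y : Y) (k : ℕ) :
    ∑ χ : Y →* ℂˣ, (starRingEnd ℂ) (((χ y : ℂˣ) : ℂ)) * ak b χ k = (Fintype.card Y : ℂ) * (b y k : ℂ) := by
  classical
  have h1 : ∀ χ : Y →* ℂˣ, (starRingEnd ℂ) (((χ y : ℂˣ) : ℂ)) * ak b χ k = ∑ y', ((χ (y⁻¹ * y') : ℂˣ) : ℂ) * (b y' k : ℂ) := by
    intro χ
    unfold ak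
    rw [Finset.mul_sum]
    refine Finset.sum_congr rfl fun y' _ => ?_
    rw [MB1_conj, map_mul, Units.val_mul, mul_assoc]
  rw [Finset.sum_congr rfl fun χ _ => h1 χ, Finset.sum_comm]
  have h2 : ∀ y', ∑ χ : Y →* ℂˣ, ((χ (y⁻¹ * y') : ℂˣ) : ℂ) * (b y' k : ℂ) = if y' = y then (Fintype.card Y : ℂ) * (b y k : ℂ) else 0 := by
    intro y'
    rw [← Finset.sum_mul, MB1_orth Y]
    by_cases h : y' = y
    · rw [if_pos h, if_pos (by rw [h, inv_mul_cancel]), h]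
    · rw [if_neg h, if_neg (fun h0 => h (inv_mul_eq_one.1 h0).symm), zero_mul]
  rw [Finset.sum_congr rfl fun y' _ => h2 y', Finset.sum_ite_eq' Finset.univ y]
  simp

theorem MB1_sum {Y : Type} [CommGroup Y] [Fintype Y] {C l : ℝ} {b : Y → ℕ → ℝ} {E : (Y →* ℂˣ) → ℂ → ℂ} (hS : Sys C l b E) (χ : Y →* ℂˣ)
    (s : ℂ) (hs : 1 < s.re) (j : ℕ) : LSeriesSummable (fun k => ak b χ k * ((Real.log k : ℂ) ^ j / (j.factorial : ℂ))) s := by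
  have e : (fun k : ℕ => ak b χ k * ((Real.log k : ℂ) ^ j / (j.factorial : ℂ))) = (j.factorial : ℂ)⁻¹ • (LSeries.logMul^[j] (ak b χ)) := by
    funext k
    rw [Pi.smul_apply, smul_eq_mul, EFX_logMul, Complex.natCast_log]
    ring
  rw [e]
  refine LSeriesSummable.smul _ ?_
  apply LSeriesSummable_of_abscissaOfAbsConv_lt_re
  rw [LSeries.absicssaOfAbsConv_logPowMul]
  exact EFX_abs hS χ s hs

theorem MB1_main {Y : Type} [CommGroup Y] [Fintype Y] [Fintype (Y →* ℂˣ)] {C l : ℝ} {b : Y → ℕ → ℝ} {E : (Y →* ℂˣ) → ℂ → ℂ} (hS : Sys C l b E)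
    (y : Y) (δ : ℝ) (j : ℕ) (hδ : 0 < δ) (hj : 1 ≤ j) :
    ((Fintype.card Y * Sy b y δ j : ℝ) : ℂ) = ∑ χ : Y →* ℂˣ, (starRingEnd ℂ) (((χ y : ℂˣ) : ℂ)) *
      ((δ : ℂ) ^ (j + 1) * LSeries (fun k => ak b χ k * ((Real.log k : ℂ) ^ j / (j.factorial : ℂ))) (1 + δ)) := by
  have hs : 1 < (1 + (δ : ℂ)).re := by
    rw [Complex.add_re, Complex.one_re, Complex.ofReal_re]
    linarith
  have h1 : ∀ χ : Y →* ℂˣ, (starRingEnd ℂ) (((χ y : ℂˣ) : ℂ)) * ((δ : ℂ) ^ (j + 1) * LSeries (fun k => ak b χ k * ((Real.log k : ℂ) ^ j / (j.factorial : ℂ))) (1 + δ)) =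
      ∑' k, (starRingEnd ℂ) (((χ y : ℂˣ) : ℂ)) * ((δ : ℂ) ^ (j + 1) * LSeries.term (fun k => ak b χ k * ((Real.log k : ℂ) ^ j / (j.factorial : ℂ))) (1 + δ) k) := by
    intro χ
    rw [tsum_mul_left, tsum_mul_left]
    rfl
  rw [Finset.sum_congr rfl fun χ _ => h1 χ]
  have h2 : ∀ χ ∈ (Finset.univ : Finset (Y →* ℂˣ)), Summable fun k => (starRingEnd ℂ) (((χ y : ℂˣ) : ℂ)) *
      ((δ : ℂ) ^ (j + 1) * LSeries.term (fun k => ak b χ k * ((Real.log k : ℂ) ^ j / (j.factorial : ℂ))) (1 + δ) k) := by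
    intro χ _
    exact ((MB1_sum hS χ (1 + δ) hs j).mul_left _).mul_left _
  rw [← Summable.tsum_finsetSum h2]
  unfold Sy
  rw [← tsum_mul_left, Complex.ofReal_tsum]
  refine tsum_congr fun k => ?_
  by_cases hk : k = 0
  · have e1 : Real.log ((k : ℕ) : ℝ) ^ j = 0 := by
      rw [hk, Nat.cast_zero, Real.log_zero, zero_pow (by omega)]
    rw [e1]
    have e2 : ∀ χ : Y →* ℂˣ, (starRingEnd ℂ) (((χ y : ℂˣ) : ℂ)) * ((δ : ℂ) ^ (j + 1) * LSeries.term (fun k => ak b χ k * ((Real.log k : ℂ) ^ j / (j.factorial : ℂ))) (1 + δ) k) = 0 := by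
      intro χ
      rw [hk, LSeries.term_zero, mul_zero, mul_zero]
    rw [Finset.sum_congr rfl fun χ _ => e2 χ]
    simp
  · have hk0 : (0 : ℝ) < k := by exact_mod_cast Nat.pos_of_ne_zero hk
    have e2 : ∀ χ : Y →* ℂˣ, (starRingEnd ℂ) (((χ y : ℂˣ) : ℂ)) * ((δ : ℂ) ^ (j + 1) * LSeries.term (fun k => ak b χ k * ((Real.log k : ℂ) ^ j / (j.factorial : ℂ))) (1 + δ) k) =
        ((starRingEnd ℂ) (((χ y : ℂˣ) : ℂ)) * ak b χ k) * ((δ : ℂ) ^ (j + 1) * ((Real.log k : ℂ) ^ j / (j.factorial : ℂ)) * (((k : ℝ) ^ (-(1 + δ)) : ℝ) : ℂ)) := by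
      intro χ
      rw [LSeries.term_of_ne_zero hk]
      have e3 : (((k : ℝ) ^ (-(1 + δ)) : ℝ) : ℂ) = ((k : ℂ) ^ (1 + (δ : ℂ)))⁻¹ := by
        rw [Complex.ofReal_cpow hk0.le, ← Complex.cpow_neg]
        push_cast
        rfl
      rw [e3]
      ring
    rw [Finset.sum_congr rfl fun χ _ => e2 χ, ← Finset.sum_mul, MB1_ak]
    push_cast
    ring

theorem MB1_MM (C l : ℝ) (hC : 1 ≤ C) (hl : 1 ≤ l) : 0 ≤ MM C l 40 ∧ MM C l 40 ≤ 661 * C * l := by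
  have h110 : Real.log (70 + 40) ≤ 5 := by
    rw [Real.log_le_iff_le_exp (by norm_num)]
    have h1 := Real.exp_one_gt_d9
    calc (70 + 40 : ℝ) ≤ 2.7 ^ 5 := by norm_num
      _ ≤ (Real.exp 1) ^ 5 := pow_le_pow_left₀ (by norm_num) (by linarith) 5
      _ = Real.exp 5 := by
        rw [← Real.exp_nat_mul]
        norm_num
  have h0 : 0 ≤ Real.log (70 + 40) := Real.log_nonneg (by norm_num)
  unfold MM
  constructor
  · positivity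
  · have h2 : C * (70 + 40) * (l + Real.log (70 + 40)) ≤ C * (70 + 40) * (l + 5) := mul_le_mul_of_nonneg_left (by linarith) (by positivity)
    have h3 : C * 1 ≤ C * l := mul_le_mul_of_nonneg_left hl (by linarith)
    nlinarith

theorem MB1 (hSQ1 : SQ1_stmt) : MB1_stmt := by
  intro q C
  obtain ⟨K1, hK1, hSQ⟩ := hSQ1 C
  have hq0 : (0 : ℝ) ≤ q := Nat.cast_nonneg q
  have hK10 : 0 ≤ (q : ℝ) * K1 := mul_nonneg hq0 (by linarith)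
  have hK20 : 0 ≤ (q : ℝ) * 800 * |C| := by positivity
  refine ⟨1 + q * K1 + q * 800 * |C|, by linarith, ?_⟩
  intro Y _ _ l b E N ρ hcard hS hL e κ δ j y hκ hδ hδ1 hj he
  haveI := MB1_fin Y
  letI : Fintype (Y →* ℂˣ) := Fintype.ofFinite _
  classical
  have hC1 := hS.C1
  have hl1 := hS.l1
  have hC0 : |C| = C := abs_of_nonneg (by linarith)
  have hcq : (Fintype.card Y : ℝ) ≤ q := by exact_mod_cast hcard
  have hcard2 : (Fintype.card (Y →* ℂˣ) : ℝ) = Fintype.card Y := by rw [MB1_card Y]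
  have hs : 1 < (1 + (δ : ℂ)).re := by
    rw [Complex.add_re, Complex.one_re, Complex.ofReal_re]
    linarith
  obtain ⟨MM0, MM1⟩ := MB1_MM C l hC1 hl1
  have hsd : ‖(1 + (δ : ℂ)) - (2 + ((0 : ℝ) : ℂ) * I)‖ ≤ 40 / 4 := by
    have e1 : (1 + (δ : ℂ)) - (2 + ((0 : ℝ) : ℂ) * I) = ((δ - 1 : ℝ) : ℂ) := by
      push_cast
      ring
    rw [e1, Complex.norm_real, Real.norm_eq_abs, abs_of_nonpos (by linarith)]
    linarith
  obtain ⟨er, her⟩ : ∃ er : (Y →* ℂˣ) → ℂ, er = fun χ => LSeries (fun k => ak b χ k * ((Real.log k : ℂ) ^ j / (j.factorial : ℂ))) (1 + δ) -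
    dl χ / (1 + δ - 1) ^ (j + 1) + ∑ i, 1 / (1 + δ - ρ χ i) ^ (j + 1) := ⟨_, rfl⟩
  have her1 : ∀ χ, ‖er χ‖ ≤ 6 * MM C l 40 * (j + 1) * (8 / 40) ^ (j + 1) := by
    intro χ
    rw [her]
    exact (hL χ).form (1 + δ) hs hsd j
  obtain ⟨F, hF⟩ : ∃ F : (Σ χ, Fin (N χ)) → ℂ, F = fun p => (starRingEnd ℂ) ((p.1 y : ℂˣ) : ℂ) * ((δ : ℂ) / (1 + δ - ρ p.1 p.2)) ^ (j + 1) := ⟨_, rfl⟩
  have hmain := MB1_main hS y δ j hδ hj
  have hδ0 : (δ : ℂ) ≠ 0 := by exact_mod_cast hδ.ne'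
  have h1 : ∀ χ : Y →* ℂˣ, (starRingEnd ℂ) (((χ y : ℂˣ) : ℂ)) * ((δ : ℂ) ^ (j + 1) * LSeries (fun k => ak b χ k * ((Real.log k : ℂ) ^ j / (j.factorial : ℂ))) (1 + δ)) =
      (starRingEnd ℂ) (((χ y : ℂˣ) : ℂ)) * dl χ - ∑ i, F ⟨χ, i⟩ + (starRingEnd ℂ) (((χ y : ℂˣ) : ℂ)) * ((δ : ℂ) ^ (j + 1) * er χ) := by
    intro χ
    have e1 : LSeries (fun k => ak b χ k * ((Real.log k : ℂ) ^ j / (j.factorial : ℂ))) (1 + δ) = er χ + dl χ / (1 + δ - 1) ^ (j + 1) - ∑ i, 1 / (1 + δ - ρ χ i) ^ (j + 1) := by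
      rw [her]
      ring
    have e2 : ∑ i, F ⟨χ, i⟩ = (starRingEnd ℂ) (((χ y : ℂˣ) : ℂ)) * ((δ : ℂ) ^ (j + 1) * ∑ i, 1 / (1 + δ - ρ χ i) ^ (j + 1)) := by
      rw [hF, Finset.mul_sum, Finset.mul_sum]
      refine Finset.sum_congr rfl fun i _ => ?_
      change (starRingEnd ℂ) (((χ y : ℂˣ) : ℂ)) * ((δ : ℂ) / (1 + δ - ρ χ i)) ^ (j + 1) = _
      rw [div_pow]
      ring
    have e3 : (δ : ℂ) ^ (j + 1) * (dl χ / (1 + δ - 1) ^ (j + 1)) = dl χ := by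
      rw [add_sub_cancel_left]
      exact mul_div_cancel₀ _ (pow_ne_zero _ hδ0)
    rw [e1, e2]
    have e4 : (δ : ℂ) ^ (j + 1) * (er χ + dl χ / (1 + δ - 1) ^ (j + 1) - ∑ i, 1 / (1 + δ - ρ χ i) ^ (j + 1)) =
        (δ : ℂ) ^ (j + 1) * (dl χ / (1 + δ - 1) ^ (j + 1)) - (δ : ℂ) ^ (j + 1) * ∑ i, 1 / (1 + δ - ρ χ i) ^ (j + 1) + (δ : ℂ) ^ (j + 1) * er χ := by ring
    rw [e4, e3]
    ring
  have h2 : ∑ χ : Y →* ℂˣ, (starRingEnd ℂ) (((χ y : ℂˣ) : ℂ)) * dl χ = 1 := by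
    rw [Finset.sum_eq_single (1 : Y →* ℂˣ)]
    · unfold dl
      rw [if_pos rfl, MonoidHom.one_apply, Units.val_one, map_one, one_mul]
    · intro χ _ hχ
      unfold dl
      rw [if_neg hχ, mul_zero]
    · intro h
      exact absurd (Finset.mem_univ _) h
  have h3 : ((Fintype.card Y * Sy b y δ j : ℝ) : ℂ) = 1 - ∑ p, F p + ∑ χ : Y →* ℂˣ, (starRingEnd ℂ) (((χ y : ℂˣ) : ℂ)) * ((δ : ℂ) ^ (j + 1) * er χ) := by
    rw [hmain, Finset.sum_congr rfl fun χ _ => h1 χ, Finset.sum_add_distrib, Finset.sum_sub_distrib, h2, Fintype.sum_sigma]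
  have h4 : (Fintype.card Y : ℝ) * Sy b y δ j = 1 - (∑ p, F p).re + (∑ χ : Y →* ℂˣ, (starRingEnd ℂ) (((χ y : ℂˣ) : ℂ)) * ((δ : ℂ) ^ (j + 1) * er χ)).re := by
    have h5 := congrArg Complex.re h3
    rw [Complex.ofReal_re, Complex.add_re, Complex.sub_re, Complex.one_re] at h5
    exact h5
  have hre : ∀ p : Σ χ, Fin (N χ), δ ≤ ‖1 + (δ : ℂ) - ρ p.1 p.2‖ := by
    intro p
    have g1 := (hL p.1).re1 p.2
    have g2 : (1 + (δ : ℂ) - ρ p.1 p.2).re = 1 + δ - (ρ p.1 p.2).re := by simp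
    have g3 := Complex.re_le_norm (1 + (δ : ℂ) - ρ p.1 p.2)
    rw [g2] at g3
    linarith
  have hFn : ∀ p ∈ eᶜ, ‖F p‖ ≤ (δ / (δ + κ)) ^ (j - 1) * (δ ^ 2 * (1 / ‖(1 + δ : ℂ) - ρ p.1 p.2‖ ^ 2)) := by
    intro p hp
    have hp' : p ∉ e := Finset.mem_compl.1 hp
    have g0 := he p hp'
    have g2 : (1 + (δ : ℂ) - ρ p.1 p.2).re = 1 + δ - (ρ p.1 p.2).re := by simp
    have g3 := Complex.re_le_norm (1 + (δ : ℂ) - ρ p.1 p.2)
    rw [g2] at g3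
    have g4 : δ + κ ≤ ‖1 + (δ : ℂ) - ρ p.1 p.2‖ := by linarith
    have g5 : 0 < ‖1 + (δ : ℂ) - ρ p.1 p.2‖ := lt_of_lt_of_le (by linarith) g4
    have g6 : ‖F p‖ = (δ / ‖1 + (δ : ℂ) - ρ p.1 p.2‖) ^ (j + 1) := by
      rw [hF]
      change ‖(starRingEnd ℂ) ((p.1 y : ℂˣ) : ℂ) * ((δ : ℂ) / (1 + δ - ρ p.1 p.2)) ^ (j + 1)‖ = _
      rw [norm_mul, RCLike.norm_conj, EFX_norm, one_mul, norm_pow, norm_div, Complex.norm_real, Real.norm_eq_abs, abs_of_pos hδ]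
    have g7 : j + 1 = (j - 1) + 2 := by omega
    rw [g6, g7, pow_add]
    have g8 : δ / ‖1 + (δ : ℂ) - ρ p.1 p.2‖ ≤ δ / (δ + κ) := div_le_div_of_nonneg_left hδ.le (by linarith) g4
    have g9 : (δ / ‖1 + (δ : ℂ) - ρ p.1 p.2‖) ^ 2 = δ ^ 2 * (1 / ‖(1 + δ : ℂ) - ρ p.1 p.2‖ ^ 2) := by
      rw [div_pow]
      ring
    rw [g9]
    exact mul_le_mul_of_nonneg_right (pow_le_pow_left₀ (by positivity) g8 _) (by positivity)
  have hsum : ∑ p ∈ eᶜ, ‖F p‖ ≤ (Fintype.card Y : ℝ) * K1 * (1 + δ * l) * (δ / (δ + κ)) ^ (j - 1) := by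
    calc ∑ p ∈ eᶜ, ‖F p‖ ≤ ∑ p ∈ eᶜ, (δ / (δ + κ)) ^ (j - 1) * (δ ^ 2 * (1 / ‖(1 + δ : ℂ) - ρ p.1 p.2‖ ^ 2)) := Finset.sum_le_sum hFn
      _ ≤ ∑ p : Σ χ, Fin (N χ), (δ / (δ + κ)) ^ (j - 1) * (δ ^ 2 * (1 / ‖(1 + δ : ℂ) - ρ p.1 p.2‖ ^ 2)) := by
        refine Finset.sum_le_sum_of_subset_of_nonneg (Finset.subset_univ _) fun p _ _ => ?_
        positivity
      _ = (δ / (δ + κ)) ^ (j - 1) * (δ ^ 2 * ∑ χ : Y →* ℂˣ, ∑ i : Fin (N χ), 1 / ‖(1 + δ : ℂ) - ρ χ i‖ ^ 2) := by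
        rw [← Finset.mul_sum, ← Finset.mul_sum, Fintype.sum_sigma]
      _ ≤ (δ / (δ + κ)) ^ (j - 1) * (δ ^ 2 * ∑ _χ : Y →* ℂˣ, K1 * (1 / δ ^ 2 + l / δ)) := by
        refine mul_le_mul_of_nonneg_left (mul_le_mul_of_nonneg_left (Finset.sum_le_sum fun χ _ => ?_) (by positivity)) (by positivity)
        exact hSQ Y l b E hS χ (N χ) (ρ χ) (hL χ) δ hδ hδ1
      _ = (Fintype.card Y : ℝ) * K1 * (1 + δ * l) * (δ / (δ + κ)) ^ (j - 1) := by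
        rw [Finset.sum_const, Finset.card_univ, nsmul_eq_mul, hcard2]
        have e1 : δ ^ 2 * ((Fintype.card Y : ℝ) * (K1 * (1 / δ ^ 2 + l / δ))) = (Fintype.card Y : ℝ) * K1 * (1 + δ * l) := by
          field_simp
        rw [e1]
        ring
  have hsum2 : ‖∑ χ : Y →* ℂˣ, (starRingEnd ℂ) (((χ y : ℂˣ) : ℂ)) * ((δ : ℂ) ^ (j + 1) * er χ)‖ ≤ (Fintype.card Y : ℝ) * (δ ^ (j + 1) * (6 * MM C l 40 * (j + 1) * (8 / 40) ^ (j + 1))) := by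
    refine (norm_sum_le _ _).trans ?_
    calc ∑ χ : Y →* ℂˣ, ‖(starRingEnd ℂ) (((χ y : ℂˣ) : ℂ)) * ((δ : ℂ) ^ (j + 1) * er χ)‖ ≤ ∑ _χ : Y →* ℂˣ, δ ^ (j + 1) * (6 * MM C l 40 * (j + 1) * (8 / 40) ^ (j + 1)) := by
          refine Finset.sum_le_sum fun χ _ => ?_
          rw [norm_mul, RCLike.norm_conj, EFX_norm, one_mul, norm_mul, norm_pow, Complex.norm_real, Real.norm_eq_abs, abs_of_pos hδ]
          exact mul_le_mul_of_nonneg_left (her1 χ) (by positivity)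
      _ = _ := by rw [Finset.sum_const, Finset.card_univ, nsmul_eq_mul, hcard2]
  have hbound1 : (Fintype.card Y : ℝ) * K1 * (1 + δ * l) * (δ / (δ + κ)) ^ (j - 1) ≤ (1 + q * K1 + q * 800 * |C|) * (1 + δ * l) * (δ / (δ + κ)) ^ (j - 1) := by
    have g1 : (Fintype.card Y : ℝ) * K1 ≤ 1 + q * K1 + q * 800 * |C| := by
      have := mul_le_mul_of_nonneg_right hcq (by linarith : (0 : ℝ) ≤ K1)
      linarith
    exact mul_le_mul_of_nonneg_right (mul_le_mul_of_nonneg_right g1 (by positivity)) (by positivity)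
  have hbound2 : (Fintype.card Y : ℝ) * (δ ^ (j + 1) * (6 * MM C l 40 * (j + 1) * (8 / 40) ^ (j + 1))) ≤ (1 + q * K1 + q * 800 * |C|) * l * (j + 1) * δ * (δ / 5) ^ j := by
    have g1 : (Fintype.card Y : ℝ) * (δ ^ (j + 1) * (6 * MM C l 40 * (j + 1) * (8 / 40) ^ (j + 1))) = ((Fintype.card Y : ℝ) * (6 / 5 * MM C l 40)) * ((j + 1) * δ * (δ / 5) ^ j) := by
      rw [div_pow δ 5 j, pow_succ δ j, pow_succ (8 / 40 : ℝ) j]
      have g2 : (8 / 40 : ℝ) ^ j = 1 / 5 ^ j := by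
        rw [show (8 / 40 : ℝ) = 1 / 5 by norm_num, one_div_pow]
      rw [g2]
      ring
    have g3 : (Fintype.card Y : ℝ) * (6 / 5 * MM C l 40) ≤ (1 + q * K1 + q * 800 * |C|) * l := by
      have g4 : (Fintype.card Y : ℝ) * (6 / 5 * MM C l 40) ≤ q * (6 / 5 * (661 * C * l)) := mul_le_mul hcq (by linarith) (by positivity) hq0
      have g5 : (q : ℝ) * (6 / 5 * (661 * C * l)) ≤ q * 800 * |C| * l := by
        rw [hC0]
        have : 0 ≤ (q : ℝ) * C * l := by positivity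
        nlinarith
      have g6 : 0 ≤ (1 + q * K1) * l := by positivity
      nlinarith
    rw [g1]
    calc _ ≤ (1 + q * K1 + q * 800 * |C|) * l * ((j + 1) * δ * (δ / 5) ^ j) := mul_le_mul_of_nonneg_right g3 (by positivity)
      _ = _ := by ring
  have h5 : (∑ p, F p).re ≤ (∑ p ∈ e, F p).re + ∑ p ∈ eᶜ, ‖F p‖ := by
    rw [← Finset.sum_add_sum_compl e F, Complex.add_re]
    have g1 := (Complex.re_le_norm (∑ p ∈ eᶜ, F p)).trans (norm_sum_le _ _)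
    linarith
  have h6 : -‖∑ χ : Y →* ℂˣ, (starRingEnd ℂ) (((χ y : ℂˣ) : ℂ)) * ((δ : ℂ) ^ (j + 1) * er χ)‖ ≤ (∑ χ : Y →* ℂˣ, (starRingEnd ℂ) (((χ y : ℂˣ) : ℂ)) * ((δ : ℂ) ^ (j + 1) * er χ)).re :=
    neg_le_of_abs_le (Complex.abs_re_le_norm _)
  have h7 : (∑ p ∈ e, F p).re = (∑ p ∈ e, (starRingEnd ℂ) ((p.1 y : ℂˣ) : ℂ) * ((δ : ℂ) / (1 + δ - ρ p.1 p.2)) ^ (j + 1)).re := by
    rw [hF]
  rw [h4, ← h7]
  linarith

end Pool.Agent.CHE
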